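import Pool.Agent.W498.Dom.Core

/-!
# The limit argument in one degree
-/

set_option autoImplicit false

open Finset Polynomial

namespace Pool.Agent.J4.H18.I

open Pool.Agent.H914 Pool.Agent.H447 Pool.Agent.W498.Dom

variable {K : Type*} [Field K] [CharZero K] {V : Type*} [AddCommGroup V] [Module K V]
  {U : Type*} [AddCommGroup U] [Module K U] {gr P : ℕ → Submodule K V}
  {grU : ℕ → Submodule K U} {n r : ℕ} {h e : Module.End K V} {hU : Module.End K U}
  {φ : U →ₗ[K] V} {ψ : V →ₗ[K] U} {δ : K}

/-- A nonzero polynomial does not vanish at some positive integer. -/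
lemma exists_nat_nonroot (p : K[X]) (hp : p ≠ 0) : ∃ s : ℕ, s ≠ 0 ∧ p.eval (s : K) ≠ 0 := by
  by_contra hcon
  push Not at hcon
  have h1 : (X * p : K[X]) = 0 := by
    apply Polynomial.eq_zero_of_infinite_isRoot
    refine Set.Infinite.mono (s := Set.range (fun s : ℕ => (s : K))) ?_
      (Set.infinite_range_of_injective Nat.cast_injective)
    rintro _ ⟨s, rfl⟩
    change (X * p : K[X]).eval (s : K) = 0
    rw [eval_mul, eval_X]
    by_cases hs : s = 0
    · rw [hs, Nat.cast_zero, zero_mul]
    · rw [hcon s hs, mul_zero]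
  exact mul_ne_zero X_ne_zero hp h1

section

variable (S : Setup gr P (n + r) h e) (M : MapSetup gr P grU n r h e hU φ ψ δ)

include S M

lemma comm_pow (u : U) (j : ℕ) : (h ^ j) (φ u) = φ ((hU ^ j) u) := by
  induction j with
  | zero => rfl
  | succ j ih => rw [pow_succ', pow_succ', Module.End.mul_apply, Module.End.mul_apply, ih, M.hφ]

/-- The power of the limit of the Lefschetz operators on a primitive element. -/
lemma limit_pow (hprim : ∀ u, (top S.iP (n + r) e ^ (r + 1)) (φ u) = 0) {i : ℕ} (hi : i ≤ n)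
    {w : U} (hw : (hU ^ (n - i + 1)) w = 0) :
    ((h + top S.iP (n + r) e) ^ (n + r - i)) (φ w) =
      ((n + r - i).choose (n - i) : K) • (top S.iP (n + r) e ^ r) (φ ((hU ^ (n - i)) w)) := by
  have hc : Commute h (top S.iP (n + r) e) := S.h_top
  rw [hc.add_pow', LinearMap.sum_apply, Finset.sum_eq_single (n - i, r)]
  · rw [LinearMap.smul_apply, Nat.cast_smul_eq_nsmul, ((hc.pow_left (n - i)).pow_right r).eq,
      Module.End.mul_apply, comm_pow S M]
  · rintro ⟨p, q⟩ hpq hne
    rw [HasAntidiagonal.mem_antidiagonal] at hpq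
    dsimp only at hpq ⊢
    rw [LinearMap.smul_apply]
    by_cases hp : n - i < p
    · rw [((hc.pow_left p).pow_right q).eq, Module.End.mul_apply, comm_pow S M,
        show p = (p - (n - i + 1)) + (n - i + 1) by omega, pow_add hU, Module.End.mul_apply, hw,
        map_zero, map_zero, map_zero, smul_zero]
    · have hq : r < q := by
        rcases Nat.lt_or_ge r q with hq | hq
        · exact hq
        · exact absurd (Prod.ext (by dsimp only; omega) (by dsimp only; omega)) hne
      rw [Module.End.mul_apply, show q = (q - (r + 1)) + (r + 1) by omega,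
        pow_add (top S.iP (n + r) e), Module.End.mul_apply, hprim, map_zero, map_zero, smul_zero]
  · intro hne
    refine absurd ?_ hne
    rw [HasAntidiagonal.mem_antidiagonal]
    dsimp only
    omega

lemma projP_e_pow (u : U) : proj S.iP (n + 2 * r) ((e ^ r) (φ u)) =
    (top S.iP (n + r) e ^ r) (φ u) := by
  -- by induction on the power
  have key : ∀ k : ℕ, (top S.iP (n + r) e ^ k) (φ u) =
      proj S.iP (n + 2 * k) ((e ^ k) (φ u)) := by
    intro k
    induction k with
    | zero => simp [proj_same S.iP (M.φP u)]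
    | succ k ih =>
      rw [pow_succ', Module.End.mul_apply, ih, S.top_apply (proj_mem S.iP _ _), pow_succ',
        Module.End.mul_apply]
      conv_rhs => rw [S.sumP ((e ^ k) (φ u)), map_sum, map_sum]
      by_cases hr : n + 2 * k < 2 * (n + r) + 1
      · rw [Finset.sum_eq_single (n + 2 * k)]
        · rfl
        · intro q _ hq
          by_cases hq' : n + 2 * k < q
          · rw [S.e_pow_level (fun q' hq' => proj_ne S.iP (M.φP u) (by omega)) q hq', map_zero,
              map_zero]
          · exact S.eP q _ (proj_mem S.iP q _) _ (by omega)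
        · intro h'; exact absurd (Finset.mem_range.2 hr) h'
      · rw [Finset.sum_eq_zero]
        · have h1 := proj_mem S.iP (n + 2 * k + 2) (e (proj S.iP (n + 2 * k) ((e ^ k) (φ u))))
          rw [S.bP _ (by omega)] at h1
          exact (Submodule.mem_bot _).1 h1
        · intro q hq
          have h1 := proj_mem S.iP (n + 2 * (k + 1)) (e (proj S.iP q ((e ^ k) (φ u))))
          rw [S.bP _ (by omega)] at h1
          exact (Submodule.mem_bot _).1 h1
  exact (key r).symm

/-- **The limit argument in the degree `i`.** -/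
theorem core_one [Module.Finite K V] [Module.Finite K U]
    (hdim : ∀ c ≤ n + r, Module.finrank K (gr (n + r - c)) = Module.finrank K (gr (n + r + c)))
    (hprim : ∀ u, (top S.iP (n + r) e ^ (r + 1)) (φ u) = 0) {i : ℕ} (hi : i ≤ n) :
    ∃ s : ℕ, s ≠ 0 ∧ HardLef gr (n + r) (h + (s : K) ^ 2 • e) ∧
      ∀ Θ : Module.End K V,
        (∀ a ∈ gr i, Θ (((h + (s : K) ^ 2 • e) ^ (n + r - i)) a) = a) →
        ∀ w ∈ grU i, (hU ^ (n - i + 1)) w = 0 → ∀ b ∈ grZ grU ((i : ℤ) - 2),
          ψ ((e ^ r) (Θ ((e ^ r) (φ ((hU ^ (n - i)) w))))) = hU b → w = 0 := by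
  obtain ⟨Λ, Λ', -, -, -, t⟩ := S.exists_sl2_both
  set Prim : Submodule K U := grU i ⊓ LinearMap.ker (hU ^ (n - i + 1)) with hPrim
  set Lo : Submodule K U := grZ grU ((i : ℤ) - 2) with hLo
  set g : U →ₗ[K] V := (e ^ r) ∘ₗ φ ∘ₗ (hU ^ (n - i)) with hg
  -- the families
  set A : K → (Prim × gr i × Lo) →ₗ[K] (V × U) := fun s =>
    LinearMap.prod
      ((LL S.iP (n + r) h e s ^ (n + r - i)) ∘ₗ (gr i).subtype ∘ₗ LinearMap.fst K (gr i) Lo ∘ₗ
          LinearMap.snd K Prim (gr i × Lo) -
        ∑ p ∈ range (n + 2 * r + 1), (X ^ (n + 2 * r - p) : K[X]).eval s •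
          (proj S.iP p ∘ₗ g ∘ₗ Prim.subtype ∘ₗ LinearMap.fst K Prim (gr i × Lo)))
      (∑ p ∈ range (2 * (n + r) + 1), (if n ≤ p then (X ^ (p - n) : K[X]) else 0).eval s •
          (ψ ∘ₗ (e ^ r) ∘ₗ proj S.iP p ∘ₗ (gr i).subtype ∘ₗ LinearMap.fst K (gr i) Lo ∘ₗ
            LinearMap.snd K Prim (gr i × Lo)) -
        hU ∘ₗ Lo.subtype ∘ₗ LinearMap.snd K (gr i) Lo ∘ₗ LinearMap.snd K Prim (gr i × Lo))
    with hA
  have hA1 : ∀ s w x b, (A s (w, x, b)).1 = (LL S.iP (n + r) h e s ^ (n + r - i)) x -
      ∑ p ∈ range (n + 2 * r + 1), s ^ (n + 2 * r - p) • proj S.iP p (g w) := by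
    intro s w x b
    simp [hA]
  have hA2 : ∀ s w x b, (A s (w, x, b)).2 =
      ∑ p ∈ range (2 * (n + r) + 1), (if n ≤ p then s ^ (p - n) else 0) •
        ψ ((e ^ r) (proj S.iP p x)) - hU b := by
    intro s w x b
    change (∑ p ∈ range (2 * (n + r) + 1), (if n ≤ p then (X ^ (p - n) : K[X]) else 0).eval s •
          (ψ ∘ₗ (e ^ r) ∘ₗ proj S.iP p ∘ₗ (gr i).subtype ∘ₗ LinearMap.fst K (gr i) Lo ∘ₗ
            LinearMap.snd K Prim (gr i × Lo))) (w, x, b) - hU b = _
    rw [LinearMap.sum_apply]
    congr 1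
    refine Finset.sum_congr rfl fun p _ => ?_
    rw [LinearMap.smul_apply]
    congr 1
    split_ifs <;> simp
  have hAf : PFam A := by
    rintro ⟨w, x, b⟩
    have h1 : PVec (K := K) (F := V) (fun s : K => (LL S.iP (n + r) h e s ^ (n + r - i)) (x : V) -
        ∑ p ∈ range (n + 2 * r + 1), (X ^ (n + 2 * r - p) : K[X]).eval s •
          proj S.iP p (g w)) := by
      refine PVec.sub ((S.pvec_LL.pfam.pow _) _) (PVec.sum fun p _ => ?_)
      exact (PVec.const _).smul _
    have h2 : PVec (K := K) (F := U) (fun s : K => ∑ p ∈ range (2 * (n + r) + 1),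
        (if n ≤ p then (X ^ (p - n) : K[X]) else 0).eval s •
          ψ ((e ^ r) (proj S.iP p (x : V))) - hU (b : U)) := by
      refine PVec.sub (PVec.sum fun p _ => ?_) (PVec.const _)
      exact (PVec.const _).smul _
    have h3 := (h1.map (LinearMap.inl K V U)).add (h2.map (LinearMap.inr K V U))
    refine (funext fun s => ?_ : (fun s => A s (w, x, b)) = _) ▸ h3
    refine Prod.ext ?_ ?_
    · rw [hA1]
      simp
    · rw [hA2]
      simp only [LinearMap.inl_apply, LinearMap.inr_apply, Prod.snd_add, zero_add]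
      congr 1
      refine Finset.sum_congr rfl fun p _ => ?_
      congr 1
      split_ifs <;> simp
  -- the power of the limit is injective
  have hT0 : ∀ c' ≤ n + r, ∀ v ∈ gr (n + r - c'),
      ((h + top S.iP (n + r) e) ^ c') v = 0 → v = 0 := by
    intro c' hc' v hv h0
    apply e_pow_inj t (c := c') _ h0
    rw [wt_apply S.igr (n + r) hv]
    congr 1
    rw [Nat.cast_sub hc']
    push_cast; ring
  set C : K := ((n + r - i).choose (n - i) : K) with hC
  have hC0 : C ≠ 0 := by
    rw [hC]
    exact_mod_cast (Nat.choose_pos (by omega)).ne'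
  have hA0 : Function.Injective (A 0) := by
    rw [← LinearMap.ker_eq_bot, LinearMap.ker_eq_bot']
    rintro ⟨w, x, b⟩ h0
    have h1 := congrArg Prod.fst h0
    have h2 := congrArg Prod.snd h0
    rw [hA1, Prod.fst_zero, S.LL_zero, Finset.sum_eq_single (n + 2 * r), Nat.sub_self, pow_zero,
      one_smul] at h1
    rotate_left
    · intro p hp hne
      have := Finset.mem_range.1 hp
      rw [zero_pow (by omega), zero_smul]
    · intro h'; exact absurd (Finset.mem_range.2 (by omega)) h'
    rw [hA2, Prod.snd_zero, Finset.sum_eq_single n, if_pos le_rfl, Nat.sub_self, pow_zero,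
      one_smul] at h2
    rotate_left
    · intro p hp hne
      by_cases hnp : n ≤ p
      · rw [if_pos hnp, zero_pow (by omega), zero_smul]
      · rw [if_neg hnp, zero_smul]
    · intro h'; exact absurd (Finset.mem_range.2 (by omega)) h'
    have hwp : (hU ^ (n - i + 1)) (w : U) = 0 := w.2.2
    have h3 : (x : V) = C⁻¹ • φ w := by
      rw [← sub_eq_zero]
      refine hT0 (n + r - i) (by omega) _ ?_ ?_
      · rw [show n + r - (n + r - i) = i by omega]
        exact Submodule.sub_mem _ x.2 (Submodule.smul_mem _ _ (M.φgr i _ w.2.1))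
      · rw [map_sub, map_smul, limit_pow S M hprim hi hwp, smul_smul, inv_mul_cancel₀ hC0,
          one_smul, ← projP_e_pow S M]
        exact h1
    have h4 : (C⁻¹ * δ) • (w : U) = hU b := by
      rw [h3, map_smul, proj_same S.iP (M.φP _), map_smul, map_smul, M.ψφ, smul_smul,
        sub_eq_zero] at h2
      exact h2
    have hκ : C⁻¹ * δ ≠ 0 := mul_ne_zero (inv_ne_zero hC0) M.δ0
    have h5 : (b : U) = 0 := by
      have hb : (b : U) ∈ grZ grU ((i : ℤ) - 2) := b.2
      by_cases hi2 : i < 2
      · rw [grZ_of_neg (by omega)] at hb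
        exact (Submodule.mem_bot _).1 hb
      · obtain ⟨j, rfl⟩ : ∃ j, i = j + 2 := ⟨i - 2, by omega⟩
        rw [show ((j + 2 : ℕ) : ℤ) - 2 = (j : ℤ) by push_cast; ring, grZ_natCast] at hb
        refine (M.hlU j (by omega)).1 _ hb ?_
        rw [show n - j = n - (j + 2) + 1 + 1 by omega, pow_succ, Module.End.mul_apply, ← h4,
          map_smul, hwp, smul_zero]
    rw [h5, map_zero] at h4
    have h6 : (w : U) = 0 := (smul_eq_zero.1 h4).resolve_left hκ
    have h7 : (x : V) = 0 := by rw [h3, h6, map_zero, smul_zero]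
    exact Prod.ext (Subtype.ext h6) (Prod.ext (Subtype.ext h7) (Subtype.ext h5))
  obtain ⟨pA, hpA, hpA'⟩ := hAf.generic_inj hA0
  -- hard Lefschetz
  have hG : ∀ c' : ℕ, ∃ p : K[X], p ≠ 0 ∧ ∀ s, p.eval s ≠ 0 →
      ∀ v ∈ gr (n + r - c'), c' ≤ n + r → (LL S.iP (n + r) h e s ^ c') v = 0 → v = 0 := by
    intro c'
    by_cases hc' : c' ≤ n + r
    · set G : K → gr (n + r - c') →ₗ[K] V := fun s =>
        (LL S.iP (n + r) h e s ^ c') ∘ₗ (gr (n + r - c')).subtype with hG
      have hGf : PFam G := fun x => (S.pvec_LL.pfam.pow c') x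
      have hG0 : Function.Injective (G 0) := by
        rw [← LinearMap.ker_eq_bot, LinearMap.ker_eq_bot']
        intro y hy
        apply Subtype.ext
        rw [hG] at hy
        simp only [LinearMap.comp_apply, Submodule.subtype_apply] at hy
        rw [S.LL_zero] at hy
        exact hT0 c' hc' _ y.2 hy
      obtain ⟨p, hp, hp'⟩ := hGf.generic_inj hG0
      refine ⟨p, hp, fun s hs v hv _ h0 => ?_⟩
      have h3 := hp' s hs
      rw [← LinearMap.ker_eq_bot, LinearMap.ker_eq_bot'] at h3
      exact congrArg Subtype.val (h3 ⟨v, hv⟩ h0)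
    · exact ⟨1, one_ne_zero, fun s _ v _ h' => absurd h' hc'⟩
  choose pG hpG hpG' using hG
  obtain ⟨s, hs, hroot⟩ := exists_nat_nonroot
    (pA * ∏ c' ∈ range (n + r + 1), pG c')
    (mul_ne_zero hpA (Finset.prod_ne_zero_iff.2 (fun c' _ => hpG c')))
  rw [eval_mul, eval_prod] at hroot
  have r2 := right_ne_zero_of_mul hroot
  have r1 := left_ne_zero_of_mul hroot
  have hs0 : (s : K) ≠ 0 := Nat.cast_ne_zero.2 hs
  have hHL : HardLef gr (n + r) (h + (s : K) ^ 2 • e) := by
    apply S.hardLef_of_inj hdim hs0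
    intro c' hc' v hv h0
    exact hpG' c' s (Finset.prod_ne_zero_iff.1 r2 c' (Finset.mem_range.2 (by omega))) v hv hc' h0
  refine ⟨s, hs, hHL, ?_⟩
  intro Θ hΘ w hw hw0 b hb hab
  set D := scal S.iP (fun p => (s : K) ^ p) with hD
  set D' := scal S.iP (fun p => ((s : K) ^ p)⁻¹) with hD'
  have hDD' : D * D' = 1 := S.scal_inv hs0
  -- the element of degree `i`
  have hgm : g w ∈ gr (2 * (n + r) - i) := by
    have h1 : (hU ^ (n - i)) w ∈ grU (i + 2 * (n - i)) := pow_L_mem M.hUgr hw (n - i)
    have h2 := M.φgr _ _ h1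
    have h3 := pow_L_mem S.egr h2 r
    rw [show i + 2 * (n - i) + 2 * r = 2 * (n + r) - i by omega] at h3
    exact h3
  obtain ⟨a, ha, hag⟩ := (hHL i (by omega)).2 _ hgm
  have h1 : ψ ((e ^ r) a) = hU b := by
    rw [← hab]
    have h2 := hΘ a ha
    rw [hag] at h2
    exact congrArg (fun z => ψ ((e ^ r) z)) h2.symm
  have hx : (s : K) ^ (n + 2 * r) • D' a ∈ gr i := Submodule.smul_mem _ _ (S.scal_gr _ ha)
  have hzero : A s (⟨w, hw, hw0⟩, ⟨(s : K) ^ (n + 2 * r) • D' a, hx⟩,
      ⟨(s : K) ^ (2 * r) • b, Submodule.smul_mem _ _ hb⟩) = 0 := by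
    refine Prod.ext ?_ ?_
    · rw [hA1, Prod.fst_zero, sub_eq_zero]
      dsimp only
      rw [map_smul, S.LL_pow hs0, Module.End.mul_apply, Module.End.mul_apply, ← hD, ← hD',
        ← Module.End.mul_apply D D', hDD', Module.End.one_apply, hag]
      conv_lhs => rw [S.sumP (g w), map_sum, Finset.smul_sum]
      have h2 : ∀ q, n + 2 * r < q → proj S.iP q (g w) = 0 :=
        S.e_pow_level (fun q hq => proj_ne S.iP (M.φP _) (by omega))
      have h3 : ∀ p ∈ range (2 * (n + r) + 1), (s : K) ^ (n + 2 * r) • D' (proj S.iP p (g w)) =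
          (s : K) ^ (n + 2 * r - p) • proj S.iP p (g w) := by
        intro p _
        rw [hD', scal_apply S.iP _ (proj_mem S.iP p _), smul_smul]
        by_cases hp : n + 2 * r < p
        · rw [h2 p hp, smul_zero, smul_zero]
        · congr 1
          rw [← pow_sub₀ _ hs0 (by omega)]
      rw [Finset.sum_congr rfl h3]
      symm
      by_cases hle : n + 2 * r + 1 ≤ 2 * (n + r) + 1
      · apply Finset.sum_subset (Finset.range_mono hle)
        intro p _ hp
        rw [h2 p (by rw [Finset.mem_range] at hp; omega), smul_zero]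
      · omega
    · rw [hA2, Prod.snd_zero, sub_eq_zero]
      dsimp only
      rw [map_smul hU, ← h1]
      conv_rhs => rw [S.sumP a, map_sum, map_sum, Finset.smul_sum]
      refine Finset.sum_congr rfl fun p _ => ?_
      rw [map_smul, map_smul, map_smul]
      have h3 : proj S.iP p (D' a) = ((s : K) ^ p)⁻¹ • proj S.iP p a := by
        rw [← Module.End.mul_apply, hD', proj, scal_mul, ← LinearMap.smul_apply]
        congr 1
        apply gr_ext S.iP
        intro p' v hv
        rw [scal_apply S.iP _ hv, LinearMap.smul_apply, scal_apply S.iP _ hv]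
        by_cases hp : p' = p
        · subst hp; simp
        · simp [hp]
      rw [h3, map_smul, map_smul, smul_smul, smul_smul]
      by_cases hnp : n ≤ p
      · rw [if_pos hnp]
        congr 1
        have h5 : (s : K) ^ (n + 2 * r) = (s : K) ^ n * (s : K) ^ (2 * r) := pow_add _ _ _
        have h6 : (s : K) ^ p = (s : K) ^ (p - n) * (s : K) ^ n := by
          rw [← pow_add]; congr 1; omega
        rw [h5, h6]
        have h7 : (s : K) ^ (p - n) ≠ 0 := pow_ne_zero _ hs0
        have h8 : (s : K) ^ n ≠ 0 := pow_ne_zero _ hs0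
        field_simp
      · rw [MapSetup.psi_low S M (by omega) (proj_mem S.iP p a), smul_zero, smul_zero]
  have h2 := hpA' s r1
  rw [← LinearMap.ker_eq_bot, LinearMap.ker_eq_bot'] at h2
  exact congrArg Subtype.val (congrArg Prod.fst (h2 _ hzero))

end

end Pool.Agent.J4.H18.I
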