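import Pool.Agent.J4.H18.I.Core
import Pool.Agent.J4.H18.B.Prim

/-!
# The conjecture B up to the degree `d` for images
-/

set_option autoImplicit false

open CategoryTheory AlgebraicGeometry Finset

universe u v

namespace Pool.Agent.J4.H18.I

open Pool.Agent.H914 Pool.Agent.H447 Pool.Agent.W534 Pool.Agent.W537 Pool.Agent.N190.Lin
  Pool.Agent.W550.B Pool.Agent.W498.Dom Pool.Agent.J4.H18.B VarClass Obj WeilCohomology

variable {k : Type u} [Field k] {𝒱 : VarClass k} {ops : CycleOps 𝒱}
  {W : WeilCohomology.{u, v} ops} {Y X : 𝒱.Obj} {f : Y ⟶ X} {D : X.Cycles} {E : Y.Cycles}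

section

variable (Q : PerverseDecomposition W f D E)

/-- The projections to the pieces commute with the multiplication by classes from `X`. -/
lemma proj_smul (p : ℕ) (y : W.H X) (x : W.H Y) :
    proj Q.isInternal p (W.map f y * x) = W.map f y * proj Q.isInternal p x := by
  refine gr_induction Q.isInternal (p := fun x => proj Q.isInternal p (W.map f y * x) =
    W.map f y * proj Q.isInternal p x) ?_ ?_ x
  · intro q x hx
    by_cases hq : q = p
    · subst hq
      rw [proj_same _ hx, proj_same _ (Q.smul_mem q y x hx)]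
    · rw [proj_ne _ hx hq, proj_ne _ (Q.smul_mem q y x hx) hq, mul_zero]
  · intro a b ha hb
    rw [mul_add, map_add, map_add, ha, hb, mul_add]

include Q in
lemma eop_map (hE : Y.IsCyc 1 E) (y : W.H X) (x : W.H Y) :
    eop W Y E (W.map f y * x) = W.map f y * eop W Y E x := by
  rw [LinearMap.mulLeft_apply, LinearMap.mulLeft_apply, ← mul_assoc, ← mul_assoc,
    W.even_comm (W.cl_mem hE)]

lemma top_smul (hE : Y.IsCyc 1 E) (m : ℕ) (y : W.H X) (x : W.H Y) :
    top Q.isInternal m (eop W Y E) (W.map f y * x) =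
      W.map f y * top Q.isInternal m (eop W Y E) x := by
  rw [top, LinearMap.sum_apply, LinearMap.sum_apply, Finset.mul_sum]
  refine Finset.sum_congr rfl fun p _ => ?_
  simp only [Module.End.mul_apply]
  rw [proj_smul Q, eop_map Q hE, proj_smul Q]

lemma top_pow_smul (hE : Y.IsCyc 1 E) (m j : ℕ) (y : W.H X) (x : W.H Y) :
    (top Q.isInternal m (eop W Y E) ^ j) (W.map f y * x) =
      W.map f y * (top Q.isInternal m (eop W Y E) ^ j) x := by
  induction j with
  | zero => rfl
  | succ j ih =>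
    rw [pow_succ', Module.End.mul_apply, Module.End.mul_apply, ih, top_smul Q hE]

lemma pow_mem_gr {K V : Type*} [Field K] [AddCommGroup V] [Module K V] {gr : ℕ → Submodule K V}
    {T : Module.End K V} (hT : IsHom gr 2 T) {i : ℕ} {v : V} (hv : v ∈ gr i) (j : ℕ) :
    (T ^ j) v ∈ gr (i + 2 * j) := pow_L_mem hT hv j

/-- The class `1` is primitive for the relative Lefschetz operator. -/
lemma top_one (hD : X.IsCyc 1 D) (hE : Y.IsCyc 1 E) (hHL : HardLefschetz W X D)
    (hf : IsDominant ops f) (h1 : (1 : W.H X) ≠ 0) {r : ℕ} (hr : Y.dim = X.dim + r) :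
    (top Q.isInternal (X.dim + r) (eop W Y E) ^ (r + 1)) (1 : W.H Y) = 0 := by
  have S := setup Q hD hE hr
  have h1P := one_piece Q hD hE hHL hf h1
  have h2P : (top Q.isInternal (X.dim + r) (eop W Y E) ^ (r + 1)) (1 : W.H Y) ∈
      Q.piece (X.dim + 2 * (r + 1)) := pow_mem_gr S.isHomP_top h1P (r + 1)
  have h2G : (top Q.isInternal (X.dim + r) (eop W Y E) ^ (r + 1)) (1 : W.H Y) ∈
      W.gr Y (2 * (r + 1)) := by
    have := pow_mem_gr S.isHom_top (W.one_mem Y) (r + 1)
    rwa [zero_add] at this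
  by_cases hn : X.dim < 2
  · have := S.bP (X.dim + 2 * (r + 1)) (by omega)
    rw [this] at h2P
    exact (Submodule.mem_bot _).1 h2P
  obtain ⟨a, ha, hab⟩ := (S.rl (X.dim - 2) (by omega)).2 _ (by
    rw [show 2 * (X.dim + r) - (X.dim - 2) = X.dim + 2 * (r + 1) by omega]
    exact h2P)
  rw [show X.dim + r - (X.dim - 2) = r + 2 by omega] at hab
  have h3 : (top Q.isInternal (X.dim + r) (eop W Y E) ^ (r + 1)) (1 : W.H Y) =
      proj (W.isInternal Y) (2 * (r + 1))
        ((top Q.isInternal (X.dim + r) (eop W Y E) ^ (r + 1)) (1 : W.H Y)) :=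
    (proj_same _ h2G).symm
  rw [h3, ← hab, S.sumG a, map_sum, map_sum]
  refine Finset.sum_eq_zero fun j _ => ?_
  have h4 := pow_mem_gr S.isHom_top (proj_mem S.igr j a) (r + 2)
  exact proj_ne _ h4 (by omega)

end

/-- **From a variety to its images.** -/
theorem injIn_of_dominant (Q : PerverseDecomposition W f D E) (hD : IsLefschetzDivisor W X D)
    (hE : Y.IsCyc 1 E) (hf : IsDominant ops f) {d : ℕ} (hd : d ≤ X.dim)
    (h : ∀ i ≤ d, InjIn W Y i) : ∀ i ≤ d, InjIn W X i := by
  by_cases h1 : (1 : W.H X) = 0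
  · intro i _
    refine ⟨0, Submodule.zero_mem _, fun a _ _ => ?_⟩
    rw [← mul_one a, h1, mul_zero]
  obtain ⟨r, hr⟩ : ∃ r, Y.dim = X.dim + r := ⟨Y.dim - X.dim, by
    have := dim_le Q hD.1 hE hD.2 hf h1; omega⟩
  have S := setup Q hD.1 hE hr
  obtain ⟨δ, M⟩ := exists_mapSetup Q hD.1 hE hD.2 hf h1 hr
  have hdim : ∀ c ≤ X.dim + r, Module.finrank W.K (W.gr Y (X.dim + r - c)) =
      Module.finrank W.K (W.gr Y (X.dim + r + c)) := by
    intro c hc
    have := betti_symm (X := Y) W (i := X.dim + r - c) (by omega)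
    rw [show 2 * Y.dim - (X.dim + r - c) = X.dim + r + c by omega] at this
    exact this.symm
  have hprim : ∀ u, (top S.iP (X.dim + r) (eop W Y E) ^ (r + 1))
      ((W.map f).toLinearMap u) = 0 := by
    intro u
    have h2 := top_pow_smul Q hE (X.dim + r) (r + 1) u 1
    rw [mul_one] at h2
    change (top Q.isInternal (X.dim + r) (eop W Y E) ^ (r + 1)) (W.map f u) = 0
    rw [h2, top_one Q hD.1 hE hD.2 hf h1 hr, mul_zero]
  intro i
  induction i using Nat.strong_induction_on with
  | _ i ih =>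
    intro hi
    obtain ⟨s, hs, hHL, hcore⟩ := core_one S M hdim hprim (show i ≤ X.dim by omega)
    set Es : Y.Cycles := ops.pull f D + ((s : ℚ) ^ 2) • E with hEs
    have hEsc : Y.IsCyc 1 Es := SmVar.IsCyc.add (ops.pull_mem f hD.1) (hE.smul _)
    have hcl : LinearMap.mulLeft W.K (W.cl Y Es) = hop W f D + ((s : W.K) ^ 2) • eop W Y E := by
      apply LinearMap.ext
      intro x
      rw [hEs, map_add, cl_smul, W.cl_pull]
      simp only [LinearMap.mulLeft_apply, LinearMap.add_apply, LinearMap.smul_apply, add_mul,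
        smul_mul_assoc]
      push_cast
      rfl
    have hHLs : HardLefschetz W Y Es := by
      rw [← hr] at hHL
      rw [← hcl] at hHL
      exact hHL
    obtain ⟨θ, hθ, hθi⟩ := kinvIn_of_injIn hEsc hHLs (show i ≤ Y.dim by omega) (h i hi)
    have k1 := (qop_pull (W := W) f).kop
    have k2 := (qop_push (W := W) f).kop
    have k4 := J4.H18.B.kop_pow (J4.H18.B.kop_L (W := W) hE) r
    refine injIn_of_prim hD (by omega) (fun j hj => ih j (by omega) (by omega))
      (φ := W.push f ∘ₗ (eop W Y E ^ r) ∘ₗ θ ∘ₗ (eop W Y E ^ r) ∘ₗ (W.map f).toLinearMap) ?_ ?_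
    · refine KOp.cast (KOp.comp k2 (KOp.comp k4 (KOp.comp hθ (KOp.comp k4 k1)))) ?_
      rw [hr]
      push_cast
      omega
    · intro a ha ha0 b hb hab
      refine hcore θ ?_ a ha ha0 b hb hab
      intro a ha
      have h2 := hθi a ha
      rw [hcl, hr] at h2
      exact h2

end Pool.Agent.J4.H18.I
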